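import Pool.Agent.Helper22.SC.Conv
import Pool.Agent.Helper66.SC.Defs

/-! # F1: homogeneity -/

namespace Pool.Agent.Helper70.SC

universe u

open ZFSet
open Pool.Agent.Helper66.SC
open Pool.Agent.Helper22.SC (U URel in_zfset in_prod gr mem_gr pair_mem_gr pfst psnd pfst_pair
  psnd_pair ud_iff ud2_iff ud1_iff in_fin)

/-! ## The canonical names are uniformly definable -/

theorem chk_eq (x : ZFSet.{u}) : chk x = img (gr x chk) (fun z => pair (psnd z) ∅) := by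
  apply ZFSet.ext
  intro z
  rw [mem_chk, mem_img]
  constructor
  · rintro ⟨y, hy, rfl⟩
    exact ⟨pair y (chk y), pair_mem_gr.2 ⟨hy, rfl⟩, by rw [psnd_pair]⟩
  · rintro ⟨w, hw, rfl⟩
    obtain ⟨y, hy, rfl⟩ := mem_gr.1 hw
    exact ⟨y, hy, by rw [psnd_pair]⟩

theorem chk_u : U CZ.{u} (fun _ _ (x : ZFSet.{u}) => chk x) := by
  have h := U.memrec (C := CZ.{u}) (α := PUnit.{u + 2})
    (F := fun _ _ p => img p.2 (fun z => pair (psnd z) ∅)) (G := fun _ _ _ x => chk x)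
    (by apply_rules (transparency := .reducible) (maxDepth := 400) using is_poly)
    (fun _ _ _ x _ => chk_eq x)
  exact h.comp (f := fun _ _ (x : ZFSet.{u}) => ((PUnit.unit, x) : PUnit.{u + 2} × ZFSet.{u}))
    (by apply_rules (transparency := .reducible) (maxDepth := 400) using is_poly)

/-! ## Automorphisms -/

section aut

variable {P π : ZFSet.{u}}

theorem _root_.Pool.Agent.Helper66.SC.IsAut.mem_P (h : IsAut P π) {s t : ZFSet.{u}} (hst : pair s t ∈ π) : s ∈ P ∧ t ∈ P :=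
  pair_mem_prod.1 (h.1.1 hst)

theorem _root_.Pool.Agent.Helper66.SC.IsAut.ex (h : IsAut P π) {s : ZFSet.{u}} (hs : s ∈ P) : ∃ t, pair s t ∈ π :=
  (h.1.2 s hs).exists

theorem _root_.Pool.Agent.Helper66.SC.IsAut.fun_unique (h : IsAut P π) {s t t' : ZFSet.{u}} (h1 : pair s t ∈ π)
    (h2 : pair s t' ∈ π) : t = t' :=
  (h.1.2 s (h.mem_P h1).1).unique h1 h2

theorem _root_.Pool.Agent.Helper66.SC.IsAut.inj (h : IsAut P π) {s s' t : ZFSet.{u}} (h1 : pair s t ∈ π)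
    (h2 : pair s' t ∈ π) : s = s' :=
  subset_antisymm ((h.2.2 s s' t t h1 h2).2 (fun _ hz => hz))
    ((h.2.2 s' s t t h2 h1).2 (fun _ hz => hz))

theorem _root_.Pool.Agent.Helper66.SC.IsAut.empty (h : IsAut P π) (h0 : ∅ ∈ P) : pair ∅ ∅ ∈ π := by
  obtain ⟨t, ht⟩ := h.ex h0
  obtain ⟨s, hs, hs'⟩ := h.2.1 ∅ h0
  have h1 : t ⊆ ∅ := (h.2.2 ∅ s t ∅ ht hs').1 (ZFSet.empty_subset s)
  have h2 : t = ∅ := subset_antisymm h1 (ZFSet.empty_subset t)
  rw [h2] at ht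
  exact ht

/-- The preimage of `H`. -/
noncomputable def pre (P π H : ZFSet.{u}) : ZFSet.{u} := P.sep (fun s => ∃ t ∈ H, pair s t ∈ π)

/-- The image of `H`. -/
noncomputable def ima (P π H : ZFSet.{u}) : ZFSet.{u} := P.sep (fun t => ∃ s ∈ H, pair s t ∈ π)

theorem pre_mem {M A : Set ZFSet.{u}} (hM : IsZF M A) {P π H : ZFSet.{u}} (hP : P ∈ M)
    (hπ : π ∈ M) (hH : H ∈ M) : pre P π H ∈ M := by
  have h : U (fun M A => IsZF M A) (fun _ _ (p : (ZFSet.{u} × ZFSet.{u}) × ZFSet.{u}) =>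
      p.1.1.sep (fun s => ∃ t ∈ p.2, pair s t ∈ p.1.2)) := by
    apply_rules (transparency := .reducible) (maxDepth := 400) using is_poly
  have := h.closed hM (a := ((P, π), H)) (by simp [hP, hπ, hH])
  simpa [pre] using this

theorem ima_mem {M A : Set ZFSet.{u}} (hM : IsZF M A) {P π H : ZFSet.{u}} (hP : P ∈ M)
    (hπ : π ∈ M) (hH : H ∈ M) : ima P π H ∈ M := by
  have h : U (fun M A => IsZF M A) (fun _ _ (p : (ZFSet.{u} × ZFSet.{u}) × ZFSet.{u}) =>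
      p.1.1.sep (fun t => ∃ s ∈ p.2, pair s t ∈ p.1.2)) := by
    apply_rules (transparency := .reducible) (maxDepth := 400) using is_poly
  have := h.closed hM (a := ((P, π), H)) (by simp [hP, hπ, hH])
  simpa [ima] using this

theorem mem_pre (h : IsAut P π) {H s : ZFSet.{u}} : s ∈ pre P π H ↔ ∃ t ∈ H, pair s t ∈ π := by
  unfold pre
  rw [ZFSet.mem_sep]
  constructor
  · exact fun h => h.2
  · rintro ⟨t, ht, hst⟩
    exact ⟨(h.mem_P hst).1, t, ht, hst⟩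

theorem mem_ima (h : IsAut P π) {H t : ZFSet.{u}} : t ∈ ima P π H ↔ ∃ s ∈ H, pair s t ∈ π := by
  unfold ima
  rw [ZFSet.mem_sep]
  constructor
  · exact fun h => h.2
  · rintro ⟨s, hs, hst⟩
    exact ⟨(h.mem_P hst).2, s, hs, hst⟩

theorem generic_pre {M A : Set ZFSet.{u}} (hM : IsZF M A) (hP : P ∈ M) (h0 : ∅ ∈ P)
    (hπ : π ∈ M) (h : IsAut P π) {H : ZFSet.{u}} (hH : IsGeneric M P H) :
    IsGeneric M P (pre P π H) where
  sub := fun s hs => (h.mem_P ((mem_pre h).1 hs).choose_spec.2).1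
  top := (mem_pre h).2 ⟨∅, hH.top, h.empty h0⟩
  up := by
    intro s hs t ht hts
    obtain ⟨s', hs', hss'⟩ := (mem_pre h).1 hs
    obtain ⟨t', htt'⟩ := h.ex ht
    refine (mem_pre h).2 ⟨t', ?_, htt'⟩
    exact hH.up s' hs' t' (h.mem_P htt').2 ((h.2.2 t s t' s' htt' hss').1 hts)
  dir := by
    intro s hs t ht
    obtain ⟨s', hs', hss'⟩ := (mem_pre h).1 hs
    obtain ⟨t', ht', htt'⟩ := (mem_pre h).1 ht
    obtain ⟨r', hr', h1, h2⟩ := hH.dir s' hs' t' ht'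
    obtain ⟨r, hr, hrr'⟩ := h.2.1 r' (hH.sub hr')
    exact ⟨r, (mem_pre h).2 ⟨r', hr', hrr'⟩, (h.2.2 s r s' r' hss' hrr').2 h1,
      (h.2.2 t r t' r' htt' hrr').2 h2⟩
  meets := by
    intro D hD hDP hdense
    obtain ⟨p', hp', hpD⟩ := hH.meets (ima P π D) (ima_mem hM hP hπ hD)
      (fun t ht => (ZFSet.mem_sep.1 ht).1) (fun p' hp' => by
        obtain ⟨p, hp, hpp'⟩ := h.2.1 p' hp'
        obtain ⟨q, hq, hpq⟩ := hdense p hp
        obtain ⟨q', hqq'⟩ := h.ex (hDP hq)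
        exact ⟨q', (mem_ima h).2 ⟨q, hq, hqq'⟩, (h.2.2 p q p' q' hpp' hqq').1 hpq⟩)
    obtain ⟨p, hp, hpp'⟩ := (mem_ima h).1 hpD
    exact ⟨p, (mem_pre h).2 ⟨p', hp', hpp'⟩, hp⟩

theorem ima_pre (h : IsAut P π) {H : ZFSet.{u}} (hHP : H ⊆ P) : ima P π (pre P π H) = H := by
  apply ZFSet.ext
  intro t
  rw [mem_ima h]
  constructor
  · rintro ⟨s, hs, hst⟩
    obtain ⟨t', ht', hst'⟩ := (mem_pre h).1 hs
    rw [h.fun_unique hst hst']
    exact ht'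
  · intro ht
    obtain ⟨s, _, hst⟩ := h.2.1 t (hHP ht)
    exact ⟨s, (mem_pre h).2 ⟨t, ht, hst⟩, hst⟩

theorem ext_pre (hFB1 : ST_FB1.{u}) (hFB1e : ST_FB1e.{u}) (hFB4 : ST_FB4.{u})
    {M : Set ZFSet.{u}} (hM : IsZF M ∅) (hP : P ∈ M) (h0 : ∅ ∈ P)
    (hπ : π ∈ M) (h : IsAut P π) {H : ZFSet.{u}} (hH : IsGeneric M P H) :
    Ext M (pre P π H) = Ext M H := by
  have hg := generic_pre hM hP h0 hπ h hH
  obtain ⟨hM1, hH1, _, _, _⟩ := hFB1 M ∅ P H hM hP hH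
  obtain ⟨hM2, hH2, _, _, _⟩ := hFB1 M ∅ P (pre P π H) hM hP hg
  have hZ1 := hFB4 M P H hM hP hH
  have hZ2 := hFB4 M P (pre P π H) hM hP hg
  apply Set.Subset.antisymm
  · exact hFB1e M _ ∅ _ hZ1 hM1 (pre_mem hZ1 (hM1 P hP) (hM1 π hπ) hH1)
  · refine hFB1e M _ ∅ _ hZ2 hM2 ?_
    have := ima_mem hZ2 (hM2 P hP) (hM2 π hπ) hH2
    rwa [ima_pre h hH.sub] at this

end aut

/-- F1: truth in `M[G]` about elements of `M` is definable in `M`. -/
theorem st_F1 (hFB0 : ST_FB0.{u}) (hFB1 : ST_FB1.{u}) (hFB1e : ST_FB1e.{u}) (hFB2 : ST_FB2.{u})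
    (hFB3 : ST_FB3.{u}) (hFB4 : ST_FB4.{u}) : ST_F1.{u} := by
  intro M P hcount hM hP h0 hhom φ
  -- the formula
  have hrel : URel CZ.{u} (fun M _ (a : ZFSet.{u} × ZFSet.{u}) =>
      ∃ p ∈ a.2, Forces M a.2 φ ![chk a.1] p) := by
    have h3 := ud_iff.1 (hFB3 1 φ)
    have h4 : URel CZ.{u} (fun M _ (q : (ZFSet.{u} × ZFSet.{u}) × ZFSet.{u}) =>
        Forces M q.1.2 φ ![chk q.1.1] q.2) := by
      have hf : U CZ.{u} (fun _ _ (q : (ZFSet.{u} × ZFSet.{u}) × ZFSet.{u}) =>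
          (![q.2, q.1.2, chk q.1.1] : Fin (1 + 2) → ZFSet.{u})) := by
        refine U.finMk (fun i => ?_)
        fin_cases i
        · exact U.id.snd
        · exact U.id.fst.snd
        · exact chk_u.comp U.id.fst.fst
      exact h3.comp hf
    exact URel.bex U.id.snd h4
  obtain ⟨ψ, hψ⟩ := (ud2_iff (C := CZ.{u}) (R := fun M _ x P =>
    ∃ p ∈ P, Forces M P φ ![chk x] p)).2 hrel
  refine ⟨ψ, fun G hG x hx => ?_⟩
  have hψ' := hψ M ∅ hM ![x, P] (fun i => by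
    fin_cases i
    · exact hx
    · exact hP)
  rw [hψ']
  change _ ↔ ∃ p ∈ P, Forces M P φ ![chk x] p
  -- values of the canonical names
  have hchk : chk x ∈ M := (( (hFB1 M ∅ P G hM hP hG).2.2.2.2) x hx).1
  have hv : ∀ i, (![chk x] : Fin 1 → ZFSet.{u}) i ∈ M := fun i => by
    fin_cases i
    exact hchk
  have key : ∀ H, IsGeneric M P H → ∀ χ : Fml 1,
      (Sat (Ext M H) ∅ χ ![x] ↔ ∃ p ∈ H, Forces M P χ ![chk x] p) := by
    intro H hH χ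
    have h1 := hFB2 M ∅ P H hM hP hH 1 χ ![chk x] hv
    have h2 : (fun i => val H ((![chk x] : Fin 1 → ZFSet.{u}) i)) = ![x] := by
      funext i
      fin_cases i
      exact (((hFB1 M ∅ P H hM hP hH).2.2.2.2) x hx).2
    rw [h2] at h1
    exact h1
  constructor
  · intro h
    obtain ⟨p, hp, h1⟩ := (key G hG φ).1 h
    exact ⟨p, hG.sub hp, h1⟩
  · rintro ⟨p, hp, hforce⟩
    by_contra hneg
    obtain ⟨q, hq, hqf⟩ := (key G hG (.neg φ)).1 hneg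
    obtain ⟨π, hπ, haut, p', hpp', r, hr, hpr, hqr⟩ := hhom p hp q (hG.sub hq)
    obtain ⟨H, hH, hrH⟩ := hFB0 M P hcount hP h0 hM.trans r hr
    have hqH : q ∈ H := hH.up r hrH q (hG.sub hq) hqr
    have hp'H : p' ∈ H := hH.up r hrH p' (haut.mem_P hpp').2 hpr
    have h1 : Sat (Ext M H) ∅ (.neg φ) ![x] := (key H hH (.neg φ)).2 ⟨q, hqH, hqf⟩
    have hg := generic_pre hM hP h0 hπ haut hH
    have h2 : Sat (Ext M (pre P π H)) ∅ φ ![x] :=
      (key _ hg φ).2 ⟨p, (mem_pre haut).2 ⟨p', hp'H, hpp'⟩, hforce⟩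
    rw [ext_pre hFB1 hFB1e hFB4 hM hP h0 hπ haut hH] at h2
    exact h1 h2

end Pool.Agent.Helper70.SC
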